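import Mathlib
import Pool.Agent.Orj.Alf

/-!
# Every weakly mixing system: a bounded function which is strictly over-recurrent at almost all times

`WeaklyMixing` is weak mixing as in the problem file. `PositiveAlong μ T K` says that for every bounded measurable `g`
the lower limit of `∫ g * g ∘ T^n` along the times `n` in `K` is at least `(∫ g)^2`; it holds for `K = ∅`, and for
example if `T` is mixing along `K`, or if `T^n` tends to the identity along `K`.
-/

set_option autoImplicit false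

open MeasureTheory Filter Topology

namespace Pool.Agent.Results.MP_e8a8db_an.AlmostAllTimes

/-- weak mixing, as in the problem file: `(1 / N) ∑_{n = 1}^N |μ (A ∩ T^{-n} B) - μ A μ B| → 0` for all measurable
sets `A`, `B` -/
def WeaklyMixing {X : Type} [MeasurableSpace X] (μ : Measure X) (T : X → X) : Prop :=
  ∀ A B : Set X, MeasurableSet A → MeasurableSet B →
    Tendsto (fun N : ℕ => (∑ n ∈ Finset.Icc 1 N,
      |μ.real (A ∩ T^[n] ⁻¹' B) - μ.real A * μ.real B|) / N) atTop (𝓝 0)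

/-- the lower limit of `∫ g * g ∘ T^n` along `n ∈ K` is at least `(∫ g)^2`, for every bounded measurable `g`
(no condition if `K` is finite, in particular if `K = ∅`) -/
def PositiveAlong {X : Type} [MeasurableSpace X] (μ : Measure X) (T : X → X) (K : Set ℕ) : Prop :=
  ∀ g : X → ℝ, Measurable g → (∃ C : ℝ, ∀ x, |g x| ≤ C) →
    ∀ d : ℝ, 0 < d → ∃ M : ℕ, ∀ n ∈ K, M ≤ n → (∫ x, g x ∂μ) ^ 2 - d < ∫ x, g x * g (T^[n] x) ∂μ

/-- Let `(X, μ, T)` be nontrivial and weakly mixing, `a n → 0` with `a n ≤ 10 ^ (-12)` for `n ≥ 1` (for example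
`a = 0`), and `ε > 0`. There are a measurable `f` with values in `[0, 1]` and a set `D` of density zero, with at most
`ε * n` elements in `[1, n]` for every `n`, such that `∫ f * f ∘ T^n > (∫ f)^2 + a n` for every `n ≥ 1` outside `D`.
If `K` is a set of times with `PositiveAlong μ T K` (for example `K = ∅`), then `D` can be taken disjoint from `K`. -/
theorem result : ∀ (X : Type) [MeasurableSpace X] (μ : Measure X) [IsProbabilityMeasure μ] (T : X → X),
    MeasurePreserving T μ μ → (∃ A : Set X, MeasurableSet A ∧ 0 < μ A ∧ μ A < 1) →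
    WeaklyMixing μ T → ∀ K : Set ℕ, PositiveAlong μ T K →
    ∀ a : ℕ → ℝ, Tendsto a atTop (𝓝 0) → (∀ n, 1 ≤ n → a n ≤ 1 / 10 ^ 12) →
    ∀ ε : ℝ, 0 < ε →
    ∃ (f : X → ℝ) (D : Set ℕ), Measurable f ∧ (∀ x, 0 ≤ f x ∧ f x ≤ 1) ∧ Disjoint D K ∧
      (∀ n : ℕ, ((D ∩ Set.Icc 1 n).ncard : ℝ) ≤ ε * n) ∧
      Tendsto (fun n : ℕ => ((D ∩ Set.Icc 1 n).ncard : ℝ) / n) atTop (𝓝 0) ∧
      ∀ n : ℕ, 1 ≤ n → n ∉ D →
        (∫ x, f x ∂μ) ^ 2 + a n < ∫ x, f x * f (T^[n] x) ∂μ := by
  intro X _ μ _ T hT hnt hw K hK a ha hac ε hε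
  have hK' : Pool.Agent.Orj.PosAlong μ T K := by
    intro g hg d hd
    obtain ⟨M, hM⟩ := hK g hg.1 hg.2 d hd
    filter_upwards [eventually_ge_atTop M] with n hn hnK
    exact (hM n hnK hn).le
  obtain ⟨f, D, hDK, hD1, hD2, hfm, hf01, hf⟩ :=
    Pool.Agent.Orj.rate_off hT hw hnt hK' ha hac hε
  refine ⟨f, D, hfm, hf01, Set.disjoint_left.2 hDK, fun n => ?_, ?_, hf⟩
  · rw [← Pool.Agent.Orj.dn_eq]
    exact hD1 n
  · unfold Pool.Agent.Orj.Dz at hD2
    simp only [Pool.Agent.Orj.dn_eq] at hD2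
    exact hD2

end Pool.Agent.Results.MP_e8a8db_an.AlmostAllTimes
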