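import Mathlib
import Pool.Agent.Orj.Poi

/-!
# Strictly over-recurrent functions: squares, Gaussian systems, Poisson suspensions, infinitely divisible processes

All definitions are in `Pool.Agent.Orj.Idv`:

* `SquareFactor μ T`: a direct square `(Y × Y, ν × ν, S × S)` of a nontrivial system is a factor of `(X, μ, T)`;
* `GaussProcess μ T g`: all combinations of `g` and `g ∘ T^n` are centred Gaussian, `g` is not zero;
* `PoissonProcess μ T g`: the pair `(g, g ∘ T^n)` has the law of `(P + R, Q + R)` with independent Poisson variables;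
* `SymmProcess μ T g`, `PosProcess μ T g`: the pair `(g, g ∘ T^n)` is infinitely divisible, symmetric resp.
  nonnegative, for every `n ≥ 1`, and `g` is not constant.
-/

set_option autoImplicit false

open MeasureTheory

namespace Pool.Agent.Results.MP_e8a8db_an.DivisibleFactors

open Pool.Agent.Orj

/-- Each of the following systems has a strictly over-recurrent function with values in `[0, 1]`. -/
theorem result : ∀ (X : Type) [MeasurableSpace X] (μ : Measure X) [IsProbabilityMeasure μ] (T : X → X),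
    MeasurePreserving T μ μ →
    (SquareFactor μ T ∨ (∃ g, GaussProcess μ T g) ∨ (∃ g, PoissonProcess μ T g) ∨
      (∃ g, SymmProcess μ T g) ∨ ∃ g, PosProcess μ T g) →
    ∃ f : X → ℝ, Measurable f ∧ (∀ x, 0 ≤ f x ∧ f x ≤ 1) ∧
      ∀ n : ℕ, 1 ≤ n → (∫ x, f x ∂μ) ^ 2 < ∫ x, f x * f (T^[n] x) ∂μ := by
  intro X _ μ _ T hT h
  have key : (∃ f : X → ℝ, BM f ∧ ∫ x, f x ∂μ = 0 ∧ ∀ n, 1 ≤ n → 0 < co μ T f n) →
      ∃ f : X → ℝ, Measurable f ∧ (∀ x, 0 ≤ f x ∧ f x ≤ 1) ∧
        ∀ n : ℕ, 1 ≤ n → (∫ x, f x ∂μ) ^ 2 < ∫ x, f x * f (T^[n] x) ∂μ := fun h1 =>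
    to_factor hT hT (MeasurePreserving.id μ) (Filter.Eventually.of_forall fun _ => rfl) h1
  rcases h with h | ⟨g, h⟩ | ⟨g, h⟩ | ⟨g, h⟩ | ⟨g, h⟩
  · exact of_square hT h
  · exact key (of_symm hT (symmProcess_of_gaussian hT h))
  · exact key (of_pos hT (posProcess_of_poisson hT h))
  · exact key (of_symm hT h)
  · exact key (of_pos hT h)

end Pool.Agent.Results.MP_e8a8db_an.DivisibleFactors
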