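import Mathlib
import Pool.Agent.Gor.Neg

set_option autoImplicit false

/-!
# Over-recurrent sets of generic measure preserving maps

`X` is the circle with Lebesgue measure `μ`, `Aut` the group of all invertible Borel maps which
preserve `μ`, with the weak topology.
-/

namespace Pool.Agent.Results.MP_e8a8db_an.GenericOverRecurrence

open Set Filter Topology MeasureTheory
open Pool.Agent.Gor

/-- Let `a n → 0` be real numbers with `a n < 1 / 1024` for `n ≥ 1` (for instance `a = 0`), and let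
`K` be a `σ`-compact subset of `L²(μ)`. There is a dense residual (comeager) set of `T ∈ Aut` which
are all weakly mixing and have a measurable set `A` with `μ (A ∩ T⁻ⁿ A) > μ (A) ^ 2 + a n` for every
`n ≥ 1`, whereas no `f ∈ K` is over-recurrent, not even up to an error which tends to `0`: if `f` is
not a.e. constant, then `∫ f · f ∘ Tⁿ < (∫ f) ^ 2 - δ` for some `δ > 0` and infinitely many `n`. -/
theorem result (a : ℕ → ℝ) (ha : Tendsto a atTop (𝓝 0)) (ha' : ∀ n : ℕ, 1 ≤ n → a n < 1 / 1024)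
    (K : Set (Lp ℝ 2 μ)) (hK : IsSigmaCompact K) :
    ∃ S : Set Aut, S ∈ residual Aut ∧ Dense S ∧ ∀ T ∈ S, WeaklyMixing T ∧
      (∃ A : Set X, MeasurableSet A ∧
        ∀ n : ℕ, 1 ≤ n → μ.real A ^ 2 + a n < μ.real (A ∩ ((T.1 : X → X)^[n]) ⁻¹' A)) ∧
      ∀ f ∈ K, (¬ ∃ c : ℝ, ∀ᵐ x ∂μ, f x = c) → ∃ δ : ℝ, 0 < δ ∧ ∀ M : ℕ, ∃ n, M ≤ n ∧
        ∫ x, f x * f ((T.1 : X → X)^[n] x) ∂μ < (∫ x, f x ∂μ) ^ 2 - δ := by
  have := baire
  have h := Filter.inter_mem (main_set ha ha') (neg_residual hK)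
  exact ⟨_, h, dense_of_mem_residual h, fun T hT => ⟨hT.1.1, hT.1.2, hT.2⟩⟩

end Pool.Agent.Results.MP_e8a8db_an.GenericOverRecurrence
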