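import Mathlib
import Pool.Agent.Orj.Fin

/-!
# Strictly over-recurrent functions for weakly mixing systems whose limit joinings are made of off-diagonals

`WMix` is weak mixing as in the problem file. `OffDiag` is the hypothesis on the limit points of the powers: for every
nonprincipal ultrafilter `U` on `ℕ` there are `p r ≥ 0` with `∑ r, p r ≤ 1` such that, for all bounded measurable `f`
with integral zero, the limit of `∫ f * f ∘ S^n` along `U` is at least `∑ r, p r * ∫ f * f ∘ S^r`. It holds if every
limit point of the powers is a combination of powers and of the projection to the constants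
(`Pool.Agent.Orj.offDiag_of_limits`), for example for systems with minimal self-joinings on standard spaces
(`Pool.Agent.Orj.offDiag_of_MSJ`).
-/

set_option autoImplicit false

open MeasureTheory

namespace Pool.Agent.Results.MP_e8a8db_an.LimitJoinings

open Pool.Agent.Orj

/-- Let `(Y, ν, S)` be nontrivial and weakly mixing with property `OffDiag`. Every system which has a power
`(Y, ν, S^k)`, `k ≥ 1`, as a factor (for example `(Y, ν, S)` itself) has a strictly over-recurrent function with
values in `[0, 1]`. -/
theorem result : ∀ (X Y : Type) [MeasurableSpace X] [MeasurableSpace Y]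
    (μ : Measure X) (ν : Measure Y) [IsProbabilityMeasure μ] [IsProbabilityMeasure ν]
    (T : X → X) (S : Y → Y) (π : X → Y) (k : ℕ), 1 ≤ k →
    MeasurePreserving T μ μ → MeasurePreserving S ν ν →
    MeasurePreserving π μ ν → (∀ᵐ x ∂μ, π (T x) = S^[k] (π x)) →
    (∃ A : Set Y, MeasurableSet A ∧ 0 < ν A ∧ ν A < 1) → WMix ν S → OffDiag ν S →
    ∃ f : X → ℝ, Measurable f ∧ (∀ x, 0 ≤ f x ∧ f x ≤ 1) ∧
      ∀ n : ℕ, 1 ≤ n → (∫ x, f x ∂μ) ^ 2 < ∫ x, f x * f (T^[n] x) ∂μ := by
  intro X Y _ _ μ ν _ _ T S π k hk hT hS hπ hc hnt hw hP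
  obtain ⟨f, hf, hf0, hfn⟩ := exists_pos hS hw hnt hP
  refine to_factor hT (hS.iterate k) hπ hc ⟨f, hf, hf0, fun n hn => ?_⟩
  have h1 := hfn (k * n) (Nat.one_le_iff_ne_zero.2 (by positivity))
  have h2 : co ν (S^[k]) f n = co ν S f (k * n) := by
    simp only [co, Function.iterate_mul]
  rw [h2]
  exact h1

end Pool.Agent.Results.MP_e8a8db_an.LimitJoinings
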